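import Pool.Agent.Helper12.NK.St

/-!
# Project NK, module MNR: branch sets of `K₅` and `K₃,₃`
-/

set_option autoImplicit false

namespace Pool.Agent.Helper61.NK

open Pool.Agent.Helper12.NK
open Pool.Agent.Helper51.AJ (IsMinor Planar Apex ExMinor Con Tch)

theorem hMNR : StMNR := by
  intro α H hP
  refine ⟨fun A h1 h2 h3 => hP.1 ⟨A, h1, h2, fun w w' h => h3 w w' h⟩, ?_⟩
  intro A B hA hB hAA hBB hAB hT
  refine hP.2 ⟨Sum.elim A B, ?_, ?_, ?_⟩
  · rintro (i | i)
    · exact hA i
    · exact hB i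
  · rintro (i | i) (j | j) hij
    · exact hAA i j fun h => hij (by rw [h])
    · exact hAB i j
    · exact (hAB j i).symm
    · exact hBB i j fun h => hij (by rw [h])
  · rintro (i | i) (j | j) hij
    · simp at hij
    · exact hT i j
    · obtain ⟨x, hx, y, hy, h⟩ := hT j i
      exact ⟨y, hy, x, hx, h.symm⟩
    · simp at hij

end Pool.Agent.Helper61.NK
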